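import Mathlib

set_option autoImplicit false

open Set

namespace Pool.Agent.Q237.EP

/-- the constant of the counterexample -/
noncomputable def A : ℝ := 2 / (3 : ℝ) ^ (3 / 2 : ℝ)

lemma A_pos : 0 < A := by unfold A; positivity

/-- `ff x = 2 (x / 3) ^ (3 / 2)` -/
noncomputable def ff (x : ℝ) : ℝ := A * x ^ (3 / 2 : ℝ)

lemma ff_sq {s : ℝ} (hs : 0 ≤ s) : ff (3 * s ^ 2) = 2 * s ^ 3 := by
  unfold ff A
  have h3 : (0 : ℝ) < (3 : ℝ) ^ (3 / 2 : ℝ) := by positivity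
  rw [Real.mul_rpow (by norm_num) (by positivity)]
  have h1 : (s ^ 2) ^ (3 / 2 : ℝ) = s ^ 3 := by
    rw [← Real.rpow_natCast s 2, ← Real.rpow_mul hs, ← Real.rpow_natCast s 3]
    norm_num
  rw [h1]
  field_simp

/-- the numbers `(3/2)(1/2)(-1/2)...` -/
noncomputable def P (j : ℕ) : ℝ := (descPochhammer ℝ j).eval (3 / 2 : ℝ)

lemma P_ne (j : ℕ) : P j ≠ 0 := by
  unfold P
  induction j with
  | zero => simp
  | succ j ih =>
    rw [descPochhammer_succ_right, Polynomial.eval_mul]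
    refine mul_ne_zero ih ?_
    simp only [Polynomial.eval_sub, Polynomial.eval_X, Polynomial.eval_natCast]
    intro h
    have h2 : (3 : ℝ) = 2 * (j : ℝ) := by linarith
    have h3 : (3 : ℕ) = 2 * j := by exact_mod_cast h2
    omega

lemma iter_ff {N x : ℝ} (hN : 0 < N) (hx : x ∈ Icc N (2 * N)) (j : ℕ) :
    iteratedDerivWithin j ff (Icc N (2 * N)) x = A * (P j * x ^ ((3 / 2 : ℝ) - j)) := by
  have hx0 : 0 < x := lt_of_lt_of_le hN hx.1
  have hcd : ContDiffAt ℝ j ff x := by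
    unfold ff
    exact contDiffAt_const.mul (Real.contDiffAt_rpow_const_of_ne hx0.ne')
  rw [iteratedDerivWithin_eq_iteratedDeriv (uniqueDiffOn_Icc (by linarith)) hcd hx]
  unfold ff
  rw [iteratedDeriv_const_mul_field]
  rw [iteratedDeriv_eq_iterate, Real.iter_deriv_rpow_const]
  rfl

lemma contDiffOn_ff {N : ℝ} (hN : 0 < N) : ContDiffOn ℝ (⊤ : ℕ∞) ff (Icc N (2 * N)) := by
  intro x hx
  have hx0 : 0 < x := lt_of_lt_of_le hN hx.1
  apply ContDiffAt.contDiffWithinAt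
  unfold ff
  exact contDiffAt_const.mul (Real.contDiffAt_rpow_const_of_ne hx0.ne')

/-- the lower constants -/
noncomputable def cc (j : ℕ) : ℝ := A * |P j| * min 1 ((2 : ℝ) ^ ((3 / 2 : ℝ) - j))

/-- the upper constants -/
noncomputable def CC (j : ℕ) : ℝ := A * |P j| * max 1 ((2 : ℝ) ^ ((3 / 2 : ℝ) - j))

lemma cc_pos (j : ℕ) : 0 < cc j := by
  unfold cc
  have h1 := A_pos
  have h2 : 0 < |P j| := abs_pos.mpr (P_ne j)
  have h3 : 0 < min (1 : ℝ) ((2 : ℝ) ^ ((3 / 2 : ℝ) - j)) := lt_min one_pos (by positivity)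
  positivity

lemma CC_pos (j : ℕ) : 0 < CC j := by
  unfold CC
  have h1 := A_pos
  have h2 : 0 < |P j| := abs_pos.mpr (P_ne j)
  have h3 : 0 < max (1 : ℝ) ((2 : ℝ) ^ ((3 / 2 : ℝ) - j)) := lt_max_of_lt_left one_pos
  positivity

lemma pow_between {t a : ℝ} (h1 : 1 ≤ t) (h2 : t ≤ 2) :
    min 1 ((2 : ℝ) ^ a) ≤ t ^ a ∧ t ^ a ≤ max 1 ((2 : ℝ) ^ a) := by
  rcases le_total 0 a with h | h
  · constructor
    · exact (min_le_left _ _).trans (Real.one_le_rpow h1 h)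
    · exact (Real.rpow_le_rpow (by linarith) h2 h).trans (le_max_right _ _)
  · constructor
    · exact (min_le_right _ _).trans (Real.rpow_le_rpow_of_nonpos (by linarith) h2 h)
    · exact (Real.rpow_le_one_of_one_le_of_nonpos h1 h).trans (le_max_left _ _)

lemma bounds_ff {N x : ℝ} (hN : 0 < N) (hx : x ∈ Icc N (2 * N)) (j : ℕ) :
    cc j * N ^ (3 / 2 : ℝ) / N ^ j ≤ |iteratedDerivWithin j ff (Icc N (2 * N)) x| ∧
    |iteratedDerivWithin j ff (Icc N (2 * N)) x| ≤ CC j * N ^ (3 / 2 : ℝ) / N ^ j := by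
  have hx0 : 0 < x := lt_of_lt_of_le hN hx.1
  rw [iter_ff hN hx j]
  have hA := A_pos
  have h1 : |A * (P j * x ^ ((3 / 2 : ℝ) - j))| = A * |P j| * x ^ ((3 / 2 : ℝ) - j) := by
    rw [abs_mul, abs_mul, abs_of_pos hA, abs_of_pos (Real.rpow_pos_of_pos hx0 _)]
    ring
  have h2 : x ^ ((3 / 2 : ℝ) - j) = (x / N) ^ ((3 / 2 : ℝ) - j) * (N ^ (3 / 2 : ℝ) / N ^ j) := by
    have e1 : N ^ (3 / 2 : ℝ) / N ^ j = N ^ ((3 / 2 : ℝ) - j) := by
      rw [Real.rpow_sub hN, Real.rpow_natCast]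
    rw [e1, ← Real.mul_rpow (by positivity) hN.le, div_mul_cancel₀ _ hN.ne']
  have h3 : 1 ≤ x / N := by rw [le_div_iff₀ hN]; linarith [hx.1]
  have h4 : x / N ≤ 2 := by rw [div_le_iff₀ hN]; exact hx.2
  obtain ⟨h5, h6⟩ := pow_between (a := (3 / 2 : ℝ) - j) h3 h4
  have h7 : 0 ≤ A * |P j| := by positivity
  have h8 : 0 ≤ N ^ (3 / 2 : ℝ) / N ^ j := by positivity
  rw [h1, h2]
  unfold cc CC
  constructor
  · calc A * |P j| * min 1 (2 ^ (3 / 2 - (j : ℝ))) * N ^ (3 / 2 : ℝ) / N ^ j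
        = A * |P j| * (min 1 (2 ^ (3 / 2 - (j : ℝ))) * (N ^ (3 / 2 : ℝ) / N ^ j)) := by ring
      _ ≤ _ := by gcongr
  · calc A * |P j| * ((x / N) ^ (3 / 2 - (j : ℝ)) * (N ^ (3 / 2 : ℝ) / N ^ j))
        ≤ A * |P j| * (max 1 (2 ^ (3 / 2 - (j : ℝ))) * (N ^ (3 / 2 : ℝ) / N ^ j)) := by gcongr
      _ = _ := by ring

end Pool.Agent.Q237.EP
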