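import Mathlib
import Pool.Agent.H469R2.NK.KL
import Pool.Agent.Helper427.Recip
import Pool.Agent.Q237.EP.D1

set_option autoImplicit false

open Finset
open Pool.Agent.H469R2.NK (e norm_e e_add e_zero e_nat kusmin_landau_mono)

namespace Pool.Agent.Q237.EP

lemma e_sub_le (x y : ℝ) : ‖e x - e y‖ ≤ 2 * Real.pi * |x - y| := by
  have h1 : e x - e y = e y * (e (x - y) - 1) := by
    rw [mul_sub, ← e_add]
    simp
  rw [h1, norm_mul, norm_e, one_mul]
  have h2 := Real.norm_exp_I_mul_ofReal_sub_one_le (x := 2 * Real.pi * (x - y))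
  unfold Pool.Agent.H469R2.NK.e
  rw [mul_comm]
  refine h2.trans ?_
  rw [Real.norm_eq_abs, abs_mul, abs_of_pos (by positivity)]

lemma e_add_int (x : ℝ) (n : ℤ) : e (x + n) = e x := by
  rw [e_add]
  have : e (n : ℝ) = 1 := by
    unfold Pool.Agent.H469R2.NK.e
    rw [Complex.exp_eq_one_iff]
    exact ⟨n, by push_cast; ring⟩
  rw [this, mul_one]

/-- a tail estimate -/
lemma tail_le (x u : ℕ → ℝ) (a N : ℕ) {θ : ℝ} (hθ : 0 < θ)
    (h : ∀ n, a ≤ n → n < N → u n ≤ x (n + 1) - x n ∧ x (n + 1) - x n ≤ u (n + 1))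
    (hu : ∀ n, a ≤ n → n < N → u n ≤ u (n + 1)) (h1 : θ ≤ u a) (h2 : u N ≤ 1 - θ) :
    ‖∑ n ∈ Ico a N, e (x n)‖ ≤ 2 / θ := by
  rcases le_or_gt N a with hNa | hNa
  · rw [Ico_eq_empty_of_le hNa]
    simp only [sum_empty, norm_zero]
    positivity
  have hlow : ∀ d, a + d ≤ N → u a ≤ u (a + d) := by
    intro d
    induction d with
    | zero => intro _; exact le_rfl
    | succ d ih =>
      intro hd
      exact (ih (by omega)).trans (hu (a + d) (by omega) (by omega))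
  have hhigh : ∀ d, d ≤ N - a → u (N - d) ≤ u N := by
    intro d
    induction d with
    | zero => intro _; exact le_rfl
    | succ d ih =>
      intro hd
      have := hu (N - (d + 1)) (by omega) (by omega)
      rw [show N - (d + 1) + 1 = N - d by omega] at this
      exact this.trans (ih (by omega))
  rw [sum_Ico_eq_sum_range]
  apply kusmin_landau_mono (fun k => x (a + k)) (N - a) hθ
  · intro n hn
    have h3 := (h (a + n) (by omega) (by omega)).1
    have h4 := hlow n (by omega)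
    rw [show a + (n + 1) = a + n + 1 by ring]
    linarith
  · intro n hn
    have h3 := (h (a + n) (by omega) (by omega)).2
    have h4 := hhigh (N - (a + n + 1)) (by omega)
    rw [show N - (N - (a + n + 1)) = a + n + 1 by omega] at h4
    rw [show a + (n + 1) = a + n + 1 by ring]
    linarith
  · intro n hn
    have h3 := (h (a + n) (by omega) (by omega)).2
    have h4 := (h (a + n + 1) (by omega) (by omega)).1
    rw [show a + (n + 1) = a + n + 1 by ring, show a + (n + 2) = a + n + 1 + 1 by ring]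
    linarith

/-- comparison of two sums -/
lemma compare (x y : ℕ → ℝ) (a b N : ℕ) (hab : a ≤ b) (hbN : b ≤ N) {ρ B : ℝ}
    (hxy : ∀ n, a ≤ n → n < b → |x n - y n| ≤ ρ)
    (hx : ‖∑ n ∈ Ico b N, e (x n)‖ ≤ B) (hy : ‖∑ n ∈ Ico b N, e (y n)‖ ≤ B) :
    ‖∑ n ∈ Ico a N, e (x n) - ∑ n ∈ Ico a N, e (y n)‖ ≤ ((b - a : ℕ) : ℝ) * (2 * Real.pi * ρ) + 2 * B := by
  rw [← sum_Ico_consecutive _ hab hbN, ← sum_Ico_consecutive (fun n => e (y n)) hab hbN]
  have h1 : ‖∑ n ∈ Ico a b, e (x n) - ∑ n ∈ Ico a b, e (y n)‖ ≤ ((b - a : ℕ) : ℝ) * (2 * Real.pi * ρ) := by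
    rw [← sum_sub_distrib]
    refine (norm_sum_le _ _).trans ?_
    have : ∀ n ∈ Ico a b, ‖e (x n) - e (y n)‖ ≤ 2 * Real.pi * ρ := by
      intro n hn
      rw [mem_Ico] at hn
      refine (e_sub_le _ _).trans ?_
      have := hxy n hn.1 hn.2
      gcongr
    refine (sum_le_card_nsmul _ _ _ this).trans ?_
    rw [Nat.card_Ico, nsmul_eq_mul]
  have h2 : (∑ n ∈ Ico a b, e (x n) + ∑ n ∈ Ico b N, e (x n)) - (∑ n ∈ Ico a b, e (y n) + ∑ n ∈ Ico b N, e (y n)) =
      (∑ n ∈ Ico a b, e (x n) - ∑ n ∈ Ico a b, e (y n)) + (∑ n ∈ Ico b N, e (x n) - ∑ n ∈ Ico b N, e (y n)) := by ring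
  rw [h2]
  refine (norm_add_le _ _).trans ?_
  have h3 : ‖∑ n ∈ Ico b N, e (x n) - ∑ n ∈ Ico b N, e (y n)‖ ≤ B + B := (norm_sub_le _ _).trans (add_le_add hx hy)
  linarith

end Pool.Agent.Q237.EP
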