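import Mathlib
import Pool.Agent.Q237.EP.D2

set_option autoImplicit false

open Finset
open Pool.Agent.H469R2.NK (e norm_e e_add e_zero e_nat)

namespace Pool.Agent.Q237.EP

/-- `s m h = √(m² + h/3)`, so that `3 (s m h)² = 3 m² + h` -/
noncomputable def s (m h : ℝ) : ℝ := Real.sqrt (m ^ 2 + h / 3)

lemma s_nonneg (m h : ℝ) : 0 ≤ s m h := Real.sqrt_nonneg _

lemma s_sq {m h : ℝ} (hh : 0 ≤ m ^ 2 + h / 3) : s m h ^ 2 = m ^ 2 + h / 3 := Real.sq_sqrt hh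

lemma s_mono {m h h' : ℝ} (hh : h ≤ h') : s m h ≤ s m h' := Real.sqrt_le_sqrt (by linarith)

/-- the phase of a block -/
noncomputable def g (m h : ℝ) : ℝ := 2 * s m h ^ 3 - 2 * m ^ 3 - m * h

lemma ff_eq {m h : ℝ} (hh : 0 ≤ m ^ 2 + h / 3) : ff (3 * m ^ 2 + h) = g m h + m * h + 2 * m ^ 3 := by
  have h1 : 3 * m ^ 2 + h = 3 * s m h ^ 2 := by rw [s_sq hh]; ring
  rw [h1, ff_sq (s_nonneg _ _)]
  unfold g
  ring

lemma g_alg {m h : ℝ} (hh : 0 ≤ m ^ 2 + h / 3) : g m h = (s m h - m) ^ 2 * (2 * s m h + m) := by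
  have h1 : h = 3 * (s m h ^ 2 - m ^ 2) := by rw [s_sq hh]; ring
  unfold g
  have h2 : m * h = m * (3 * (s m h ^ 2 - m ^ 2)) := by rw [← h1]
  rw [h2]
  ring

lemma g_diff {m h : ℝ} (hm : 0 < m) (hh : 0 ≤ m ^ 2 + h / 3) :
    s m h - m ≤ g m (h + 1) - g m h ∧ g m (h + 1) - g m h ≤ s m (h + 1) - m := by
  set a := s m h with ha
  set b := s m (h + 1) with hb
  have ha0 : 0 ≤ a := s_nonneg _ _
  have hab : a ≤ b := s_mono (by linarith)
  have ha2 : a ^ 2 = m ^ 2 + h / 3 := s_sq hh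
  have hb2 : b ^ 2 = m ^ 2 + (h + 1) / 3 := s_sq (by linarith)
  have hb0 : 0 < b := Real.sqrt_pos.mpr (by linarith)
  have h1 : g m (h + 1) - g m h = 2 * (b ^ 3 - a ^ 3) - m := by
    unfold g
    rw [← ha, ← hb]
    ring
  have h2 : (b - a) * (3 * (a + b)) = 1 := by
    have : b ^ 2 - a ^ 2 = 1 / 3 := by rw [ha2, hb2]; ring
    nlinarith
  rw [h1]
  have hs : 0 < 3 * (a + b) := by positivity
  have h3 : (2 * (b ^ 3 - a ^ 3)) * (3 * (a + b)) = 2 * (b ^ 2 + a * b + a ^ 2) := by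
    have : (2 * (b ^ 3 - a ^ 3)) * (3 * (a + b)) = 2 * (b ^ 2 + a * b + a ^ 2) * ((b - a) * (3 * (a + b))) := by ring
    rw [this, h2, mul_one]
  constructor
  · have : a ≤ 2 * (b ^ 3 - a ^ 3) := by
      rw [← mul_le_mul_iff_left₀ hs, h3]
      nlinarith [mul_nonneg (sub_nonneg.mpr hab) (by positivity : 0 ≤ 2 * b + a)]
    linarith
  · have : 2 * (b ^ 3 - a ^ 3) ≤ b := by
      rw [← mul_le_mul_iff_left₀ hs, h3]
      nlinarith [mul_nonneg (sub_nonneg.mpr hab) (by positivity : 0 ≤ b + 2 * a)]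
    linarith

lemma g_taylor {m h : ℝ} (hm : 0 < m) (hh : 0 ≤ m ^ 2 + h / 3) (hs : s m h ≤ 2 * m) :
    |g m h - h ^ 2 / (12 * m)| ≤ |h| ^ 3 / (14 * m ^ 3) := by
  set a := s m h with ha
  have ha0 : 0 ≤ a := s_nonneg _ _
  have ha2 : a ^ 2 = m ^ 2 + h / 3 := s_sq hh
  have hh3 : h = 3 * (a ^ 2 - m ^ 2) := by rw [ha2]; ring
  have h1 : g m h - h ^ 2 / (12 * m) = -((a - m) ^ 3 * (3 * a + m) / (4 * m)) := by
    rw [g_alg hh, ← ha]
    have h2 : h ^ 2 = (3 * (a ^ 2 - m ^ 2)) ^ 2 := by rw [← hh3]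
    rw [h2]
    field_simp
    ring
  have h4 : |a - m| ≤ |h| / (3 * m) := by
    rw [le_div_iff₀ (by positivity)]
    have h5 : |h| = |a - m| * (3 * (a + m)) := by
      have : h = (a - m) * (3 * (a + m)) := by rw [hh3]; ring
      conv_lhs => rw [this]
      rw [abs_mul, abs_of_pos (by positivity : 0 < 3 * (a + m))]
    rw [h5]
    have : 0 ≤ |a - m| := abs_nonneg _
    nlinarith
  rw [h1, abs_neg, abs_div, abs_mul, abs_pow, abs_of_pos (by positivity : 0 < 3 * a + m),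
    abs_of_pos (by positivity : 0 < 4 * m)]
  have h6 : (3 * a + m) / (4 * m) ≤ 7 / 4 := by
    rw [div_le_div_iff₀ (by positivity) (by norm_num)]
    nlinarith
  calc |a - m| ^ 3 * (3 * a + m) / (4 * m) = |a - m| ^ 3 * ((3 * a + m) / (4 * m)) := by ring
    _ ≤ (|h| / (3 * m)) ^ 3 * (7 / 4) := by gcongr
    _ = |h| ^ 3 / m ^ 3 * (7 / 108) := by field_simp; ring
    _ ≤ |h| ^ 3 / m ^ 3 * (1 / 14) := mul_le_mul_of_nonneg_left (by norm_num) (by positivity)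
    _ = |h| ^ 3 / (14 * m ^ 3) := by field_simp

end Pool.Agent.Q237.EP
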