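import Mathlib
import Pool.Agent.Q237.EP.D3

set_option autoImplicit false

open Finset
open Pool.Agent.H469R2.NK (e norm_e e_add e_zero e_nat)

namespace Pool.Agent.Q237.EP

lemma pi7 : 2 * Real.pi ≤ 7 := by have := Real.pi_lt_d2; linarith

lemma tail_quad {m H N : ℕ} (hm : 2 ≤ m) (hH : 1 ≤ H) (hHm : H ≤ m) (hN : N ≤ 3 * m + 1) :
    ‖∑ n ∈ Ico H N, e ((n : ℝ) ^ 2 / (12 * m))‖ ≤ 16 * m / H := by
  have hm0 : (0 : ℝ) < m := by exact_mod_cast (by omega : 0 < m)
  have hm2 : (2 : ℝ) ≤ m := by exact_mod_cast hm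
  have hH0 : (0 : ℝ) < H := by exact_mod_cast hH
  have hHmR : (H : ℝ) ≤ m := by exact_mod_cast hHm
  have hNR : (N : ℝ) ≤ 3 * m + 1 := by exact_mod_cast hN
  have h := tail_le (fun n => (n : ℝ) ^ 2 / (12 * m)) (fun n => (n : ℝ) / (6 * m)) H N
    (θ := H / (8 * m)) (by positivity) (by
      intro n _ _
      have hn : (0 : ℝ) ≤ n := Nat.cast_nonneg n
      push_cast
      have e1 : ((n : ℝ) + 1) ^ 2 / (12 * m) - (n : ℝ) ^ 2 / (12 * m) = (2 * n + 1) / (12 * m) := by
        field_simp; ring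
      rw [e1]
      constructor
      · rw [div_le_div_iff₀ (by positivity) (by positivity)]; nlinarith
      · rw [div_le_div_iff₀ (by positivity) (by positivity)]; nlinarith) (by
      intro n _ _
      push_cast
      gcongr
      linarith) (by
      gcongr
      linarith) (by
      have h1 : (H : ℝ) / (8 * m) ≤ 1 / 8 := by
        rw [div_le_div_iff₀ (by positivity) (by norm_num)]; nlinarith
      have h2 : (N : ℝ) / (6 * m) ≤ 7 / 8 := by
        rw [div_le_div_iff₀ (by positivity) (by norm_num)]; nlinarith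
      linarith)
  refine h.trans (le_of_eq ?_)
  field_simp
  norm_num

lemma tail_right {m H : ℕ} (hm : 2 ≤ m) (hH : 1 ≤ H) (hHm : H ≤ m) :
    ‖∑ n ∈ Ico H (3 * m + 1), e (g m n)‖ ≤ 16 * m / H := by
  have hm0 : (0 : ℝ) < m := by exact_mod_cast (by omega : 0 < m)
  have hm2 : (2 : ℝ) ≤ m := by exact_mod_cast hm
  have hH0 : (0 : ℝ) < H := by exact_mod_cast hH
  have hHmR : (H : ℝ) ≤ m := by exact_mod_cast hHm
  have h := tail_le (fun n => g m n) (fun n => s m n - m) H (3 * m + 1)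
    (θ := H / (8 * m)) (by positivity) (by
      intro n _ _
      have hn : (0 : ℝ) ≤ n := Nat.cast_nonneg n
      push_cast
      exact g_diff hm0 (by positivity)) (by
      intro n _ _
      push_cast
      have : s m n ≤ s m (n + 1) := s_mono (by linarith)
      linarith) (by
      have : (m : ℝ) + H / (8 * m) ≤ s m H := by
        apply Real.le_sqrt_of_sq_le
        have e1 : ((m : ℝ) + H / (8 * m)) ^ 2 = m ^ 2 + H / 4 + (H / m) ^ 2 / 64 := by field_simp; ring
        rw [e1]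
        have h1 : (H : ℝ) / m ≤ 1 := by rw [div_le_one hm0]; exact hHmR
        have h2 : 0 ≤ (H : ℝ) / m := by positivity
        have h3 : ((H : ℝ) / m) ^ 2 ≤ 1 := by nlinarith
        have h4 : (1 : ℝ) ≤ H := by exact_mod_cast hH
        nlinarith
      linarith) (by
      have h1 : (H : ℝ) / (8 * m) ≤ 1 / 8 := by
        rw [div_le_div_iff₀ (by positivity) (by norm_num)]; nlinarith
      have h2 : s m ((3 * m + 1 : ℕ) : ℝ) ≤ m + 7 / 8 := by
        apply Real.sqrt_le_iff.mpr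
        refine ⟨by positivity, ?_⟩
        push_cast
        nlinarith
      linarith)
  refine h.trans (le_of_eq ?_)
  field_simp
  norm_num

lemma tail_left {m H : ℕ} (hm : 2 ≤ m) (hH : 1 ≤ H) (hHm : H ≤ m) :
    ‖∑ n ∈ Ico H (3 * m), e (g m (-(n : ℝ)))‖ ≤ 16 * m / H := by
  have hm0 : (0 : ℝ) < m := by exact_mod_cast (by omega : 0 < m)
  have hm2 : (2 : ℝ) ≤ m := by exact_mod_cast hm
  have hH0 : (0 : ℝ) < H := by exact_mod_cast hH
  have hHmR : (H : ℝ) ≤ m := by exact_mod_cast hHm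
  have h := tail_le (fun n => g m (-(n : ℝ))) (fun n => m - s m (-(n : ℝ))) H (3 * m)
    (θ := H / (8 * m)) (by positivity) (by
      intro n _ hn2
      have hn : (0 : ℝ) ≤ n := Nat.cast_nonneg n
      have hn3 : (n : ℝ) + 1 ≤ 3 * m := by exact_mod_cast hn2
      push_cast
      have h1 := g_diff (m := m) (h := -((n : ℝ) + 1)) hm0 (by nlinarith)
      rw [show -((n : ℝ) + 1) + 1 = -(n : ℝ) by ring] at h1
      constructor
      · linarith [h1.2]
      · linarith [h1.1]) (by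
      intro n _ _
      push_cast
      have : s m (-((n : ℝ) + 1)) ≤ s m (-(n : ℝ)) := s_mono (by linarith)
      linarith) (by
      have : s m (-(H : ℝ)) ≤ (m : ℝ) - H / (8 * m) := by
        have h1 : (H : ℝ) / m ≤ 1 := by rw [div_le_one hm0]; exact hHmR
        have e0 : (H : ℝ) / (8 * m) = (H / m) / 8 := by field_simp
        apply Real.sqrt_le_iff.mpr
        refine ⟨by rw [e0]; linarith, ?_⟩
        have e1 : ((m : ℝ) - H / (8 * m)) ^ 2 = m ^ 2 - H / 4 + (H / m) ^ 2 / 64 := by field_simp; ring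
        rw [e1]
        have h3 : 0 ≤ ((H : ℝ) / m) ^ 2 := by positivity
        nlinarith
      linarith) (by
      have h1 : (H : ℝ) / (8 * m) ≤ 1 / 8 := by
        rw [div_le_div_iff₀ (by positivity) (by norm_num)]; nlinarith
      have h2 : (m : ℝ) - 7 / 8 ≤ s m (-((3 * m : ℕ) : ℝ)) := by
        apply Real.le_sqrt_of_sq_le
        push_cast
        nlinarith
      linarith)
  refine h.trans (le_of_eq ?_)
  field_simp
  norm_num

lemma rho_mul {m H : ℕ} (hm : 2 ≤ m) (k : ℕ) (hk : k ≤ H) :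
    (k : ℝ) * (2 * Real.pi * ((H : ℝ) ^ 3 / (14 * m ^ 3))) ≤ (H : ℝ) ^ 4 / (2 * m ^ 3) := by
  have hm0 : (0 : ℝ) < m := by exact_mod_cast (by omega : 0 < m)
  have hkR : (k : ℝ) ≤ H := by exact_mod_cast hk
  have := pi7
  have hH0 : (0 : ℝ) ≤ H := Nat.cast_nonneg H
  calc (k : ℝ) * (2 * Real.pi * ((H : ℝ) ^ 3 / (14 * m ^ 3)))
      ≤ (H : ℝ) * (7 * ((H : ℝ) ^ 3 / (14 * m ^ 3))) := by gcongr
    _ = (H : ℝ) ^ 4 / (2 * m ^ 3) := by field_simp; ring

lemma block_right {m H : ℕ} (hm : 2 ≤ m) (hH : 1 ≤ H) (hHm : H ≤ m) :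
    ‖∑ n ∈ Ico 0 (3 * m + 1), e (g m n) - ∑ n ∈ Ico 0 (3 * m + 1), e ((n : ℝ) ^ 2 / (12 * m))‖ ≤
      (H : ℝ) ^ 4 / (2 * m ^ 3) + 2 * (16 * m / H) := by
  have hm0 : (0 : ℝ) < m := by exact_mod_cast (by omega : 0 < m)
  have h := compare (fun n => g m n) (fun n => (n : ℝ) ^ 2 / (12 * m)) 0 H (3 * m + 1) (by omega) (by omega)
    (ρ := (H : ℝ) ^ 3 / (14 * m ^ 3)) (B := 16 * m / H) (by
      intro n _ hn
      have hnH : (n : ℝ) ≤ H := by exact_mod_cast hn.le
      have hnm : (n : ℝ) ≤ m := by exact_mod_cast hn.le.trans hHm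
      have hn0 : (0 : ℝ) ≤ n := Nat.cast_nonneg n
      have hs : s m n ≤ 2 * m := by
        apply Real.sqrt_le_iff.mpr
        refine ⟨by positivity, ?_⟩
        have : (2 : ℝ) ≤ m := by exact_mod_cast hm
        nlinarith
      refine (g_taylor hm0 (by positivity) hs).trans ?_
      rw [abs_of_nonneg hn0]
      gcongr) (tail_right hm hH hHm) (tail_quad hm hH hHm le_rfl)
  refine h.trans ?_
  have := rho_mul (m := m) (H := H) hm (H - 0) (by omega)
  linarith

lemma block_left {m H : ℕ} (hm : 2 ≤ m) (hH : 1 ≤ H) (hHm : H ≤ m) :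
    ‖∑ n ∈ Ico 1 (3 * m), e (g m (-(n : ℝ))) - ∑ n ∈ Ico 1 (3 * m), e ((n : ℝ) ^ 2 / (12 * m))‖ ≤
      (H : ℝ) ^ 4 / (2 * m ^ 3) + 2 * (16 * m / H) := by
  have hm0 : (0 : ℝ) < m := by exact_mod_cast (by omega : 0 < m)
  have h := compare (fun n => g m (-(n : ℝ))) (fun n => (n : ℝ) ^ 2 / (12 * m)) 1 H (3 * m) hH (by omega)
    (ρ := (H : ℝ) ^ 3 / (14 * m ^ 3)) (B := 16 * m / H) (by
      intro n _ hn
      have hnH : (n : ℝ) ≤ H := by exact_mod_cast hn.le
      have hnm : (n : ℝ) ≤ m := by exact_mod_cast hn.le.trans hHm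
      have hn0 : (0 : ℝ) ≤ n := Nat.cast_nonneg n
      have hm2 : (2 : ℝ) ≤ m := by exact_mod_cast hm
      have hs : s m (-(n : ℝ)) ≤ 2 * m := by
        apply Real.sqrt_le_iff.mpr
        refine ⟨by positivity, ?_⟩
        nlinarith
      have h1 := g_taylor (m := m) (h := -(n : ℝ)) hm0 (by nlinarith) hs
      rw [neg_sq, abs_neg, abs_of_nonneg hn0] at h1
      refine h1.trans ?_
      gcongr) (tail_left hm hH hHm) (tail_quad hm hH hHm (by omega))
  refine h.trans ?_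
  have := rho_mul (m := m) (H := H) hm (H - 1) (by omega)
  linarith

end Pool.Agent.Q237.EP
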