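import Mathlib
import Pool.Agent.Q237.EP.D4

set_option autoImplicit false

open Finset
open Pool.Agent.H469R2.NK (e norm_e e_add e_zero e_nat)

namespace Pool.Agent.Q237.EP

lemma gauss_range {m : ℕ} (hm : 1 ≤ m) :
    ∑ n ∈ range (6 * m), e ((n : ℝ) ^ 2 / (12 * m)) = (Real.sqrt (6 * m) : ℂ) * e (1 / 8) := by
  haveI : NeZero (6 * m) := ⟨by omega⟩
  have hm0 : (m : ℂ) ≠ 0 := by exact_mod_cast (by omega : m ≠ 0)
  have h := Recip.reciprocity 1 (6 * m) 0 (by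
    push_cast
    exact ⟨3 * m, by ring⟩)
  rw [Finset.sum_range]
  have h1 : ∀ n : Fin (6 * m), e (((n : ℕ) : ℝ) ^ 2 / (12 * m)) =
      Complex.exp (Real.pi * Complex.I * (((1 : ℕ) : ℂ) * ((n : ℕ) : ℂ) ^ 2 + ((0 : ℤ) : ℂ) * ((n : ℕ) : ℂ)) / ((6 * m : ℕ) : ℂ)) := by
    intro n
    unfold Pool.Agent.H469R2.NK.e
    congr 1
    push_cast
    field_simp
    ring
  rw [Finset.sum_congr rfl (fun n _ => h1 n), h]
  simp only [Finset.univ_unique, Fin.default_eq_zero, Fin.isValue, Fin.val_zero, Nat.cast_zero, Int.cast_zero,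
    Finset.sum_singleton]
  unfold Pool.Agent.H469R2.NK.e
  have h2 : Complex.exp (Real.pi * Complex.I / 4) = Complex.exp (((2 * Real.pi * (1 / 8) : ℝ) : ℂ) * Complex.I) := by
    congr 1
    push_cast
    ring
  rw [← h2]
  simp

lemma gauss_two {m : ℕ} (hm : 1 ≤ m) :
    ∑ n ∈ Ico 0 (3 * m + 1), e ((n : ℝ) ^ 2 / (12 * m)) + ∑ n ∈ Ico 1 (3 * m), e ((n : ℝ) ^ 2 / (12 * m)) =
      (Real.sqrt (6 * m) : ℂ) * e (1 / 8) := by
  have hm0 : (m : ℝ) ≠ 0 := by exact_mod_cast (by omega : m ≠ 0)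
  rw [← gauss_range hm, range_eq_Ico, ← sum_Ico_consecutive _ (by omega : 0 ≤ 3 * m + 1) (by omega : 3 * m + 1 ≤ 6 * m)]
  congr 1
  have h := sum_Ico_reflect (fun n => e ((n : ℝ) ^ 2 / (12 * m))) 1 (m := 3 * m) (n := 6 * m) (by omega)
  rw [show 6 * m + 1 - 3 * m = 3 * m + 1 by omega, show 6 * m + 1 - 1 = 6 * m by omega] at h
  rw [← h]
  refine sum_congr rfl fun k hk => ?_
  rw [mem_Ico] at hk
  rw [Nat.cast_sub (by omega : k ≤ 6 * m)]
  have h1 : ((((6 * m : ℕ) : ℝ) - k) ^ 2 / (12 * m)) = (k : ℝ) ^ 2 / (12 * m) + ((3 * m - k : ℤ) : ℝ) := by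
    push_cast
    field_simp
    ring
  rw [h1, e_add_int]

/-- the beginning of the `m`-th block -/
def st (m : ℕ) : ℕ := 3 * m ^ 2 + 1 - 3 * m

lemma st_succ (m : ℕ) : st (m + 1) = 3 * m ^ 2 + (3 * m + 1) := by
  unfold st
  have : 3 * (m + 1) ^ 2 + 1 = 3 * m ^ 2 + (3 * m + 1) + 3 * (m + 1) := by ring
  omega

lemma st_le {m : ℕ} (hm : 1 ≤ m) : 3 * m ≤ 3 * m ^ 2 := by nlinarith

lemma st_mono (m : ℕ) : st m ≤ st (m + 1) := by
  rw [st_succ]; unfold st; omega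

/-- the sum over a block -/
noncomputable def T (m : ℕ) : ℂ := ∑ n ∈ Ico (st m) (st (m + 1)), e (ff n)

lemma T_eq {m : ℕ} (hm : 1 ≤ m) :
    T m = ∑ n ∈ Ico 0 (3 * m + 1), e (g m n) + ∑ n ∈ Ico 1 (3 * m), e (g m (-(n : ℝ))) := by
  have hmR : (1 : ℝ) ≤ m := by exact_mod_cast hm
  have hle := st_le hm
  unfold T
  rw [← sum_Ico_consecutive _ (by unfold st; omega : st m ≤ 3 * m ^ 2) (by rw [st_succ]; omega : 3 * m ^ 2 ≤ st (m + 1)),
    add_comm, st_succ]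
  congr 1
  · rw [sum_Ico_eq_sum_range, sum_Ico_eq_sum_range]
    rw [show 3 * m ^ 2 + (3 * m + 1) - 3 * m ^ 2 = 3 * m + 1 - 0 by omega]
    refine sum_congr rfl fun j _ => ?_
    push_cast
    rw [zero_add, ff_eq (by positivity)]
    rw [show g m j + m * j + 2 * (m : ℝ) ^ 3 = g m j + ((m * j + 2 * m ^ 3 : ℤ) : ℝ) by push_cast; ring, e_add_int]
  · have h := sum_Ico_reflect (fun n => e (ff n)) 1 (m := 3 * m) (n := 3 * m ^ 2) (by omega)
    rw [show 3 * m ^ 2 + 1 - 1 = 3 * m ^ 2 by omega] at h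
    unfold st
    rw [← h]
    refine sum_congr rfl fun j hj => ?_
    rw [mem_Ico] at hj
    rw [Nat.cast_sub (by omega : j ≤ 3 * m ^ 2)]
    have hj2 : (j : ℝ) ≤ 3 * m := by exact_mod_cast hj.2.le
    push_cast
    rw [sub_eq_add_neg, ff_eq (by nlinarith)]
    rw [show g m (-(j : ℝ)) + m * (-(j : ℝ)) + 2 * (m : ℝ) ^ 3 = g m (-(j : ℝ)) + ((-(m * j) + 2 * m ^ 3 : ℤ) : ℝ) by
      push_cast; ring, e_add_int]

lemma T_approx {m H : ℕ} (hm : 2 ≤ m) (hH : 1 ≤ H) (hHm : H ≤ m) :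
    ‖T m - (Real.sqrt (6 * m) : ℂ) * e (1 / 8)‖ ≤ (H : ℝ) ^ 4 / m ^ 3 + 64 * m / H := by
  have hm0 : (0 : ℝ) < m := by exact_mod_cast (by omega : 0 < m)
  rw [T_eq (by omega), ← gauss_two (by omega)]
  have h1 := block_right hm hH hHm
  have h2 := block_left hm hH hHm
  have e1 : ∀ a b c d : ℂ, (a + b) - (c + d) = (a - c) + (b - d) := fun a b c d => by ring
  rw [e1]
  refine (norm_add_le _ _).trans ((add_le_add h1 h2).trans (le_of_eq ?_))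
  ring

end Pool.Agent.Q237.EP
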