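import Mathlib
import Pool.Agent.Q237.EP.D5

set_option autoImplicit false

open Finset
open Pool.Agent.H469R2.NK (e norm_e e_add e_zero e_nat)

namespace Pool.Agent.Q237.EP

lemma sum_T (M d : ℕ) : ∑ m ∈ Ico M (M + d), T m = ∑ n ∈ Ico (st M) (st (M + d)), e (ff n) := by
  induction d with
  | zero => simp
  | succ d ih =>
    have hmono : st M ≤ st (M + d) := by
      clear ih
      induction d with
      | zero => exact le_rfl
      | succ d ih => exact ih.trans (st_mono (M + d))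
    rw [← add_assoc, sum_Ico_succ_top (by omega), ih]
    unfold T
    exact sum_Ico_consecutive _ hmono (st_mono _)

lemma st_mono' (M d : ℕ) : st M ≤ st (M + d) := by
  induction d with
  | zero => exact le_rfl
  | succ d ih => exact ih.trans (st_mono (M + d))

lemma re_T {j m : ℕ} (hj : 5 ≤ j) (h1 : j ^ 10 ≤ m) (h2 : 4 * m ≤ 5 * j ^ 10) :
    (j : ℝ) ^ 5 ≤ (e (-(1 / 8)) * T m).re := by
  have hj5 : (5 : ℝ) ≤ j := by exact_mod_cast hj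
  have hj0 : (0 : ℝ) < j := by linarith
  have h1R : (j : ℝ) ^ 10 ≤ m := by exact_mod_cast h1
  have h2R : 4 * (m : ℝ) ≤ 5 * (j : ℝ) ^ 10 := by exact_mod_cast h2
  have hH : 1 ≤ j ^ 8 := Nat.one_le_pow _ _ (by omega)
  have hHm : j ^ 8 ≤ m := le_trans (Nat.pow_le_pow_right (by omega) (by norm_num)) h1
  have hm2 : 2 ≤ m := by
    have : 2 ^ 10 ≤ j ^ 10 := Nat.pow_le_pow_left (by omega) 10
    omega
  have hm0 : (0 : ℝ) < m := by exact_mod_cast (by omega : 0 < m)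
  have h3 := T_approx hm2 hH hHm
  push_cast at h3
  have h4 : ((j : ℝ) ^ 8) ^ 4 / (m : ℝ) ^ 3 ≤ j ^ 2 := by
    rw [div_le_iff₀ (by positivity)]
    calc ((j : ℝ) ^ 8) ^ 4 = j ^ 2 * (j ^ 10) ^ 3 := by ring
      _ ≤ j ^ 2 * (m : ℝ) ^ 3 := by gcongr
  have h5 : 64 * (m : ℝ) / (j : ℝ) ^ 8 ≤ 80 * j ^ 2 := by
    rw [div_le_iff₀ (by positivity)]
    have : 80 * (j : ℝ) ^ 2 * (j : ℝ) ^ 8 = 16 * (5 * (j : ℝ) ^ 10) := by ring
    rw [this]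
    linarith
  have h6 : 2 * (j : ℝ) ^ 5 ≤ Real.sqrt (6 * m) := by
    apply Real.le_sqrt_of_sq_le
    have : (2 * (j : ℝ) ^ 5) ^ 2 = 4 * (j : ℝ) ^ 10 := by ring
    rw [this]
    linarith
  have h7 : 81 * (j : ℝ) ^ 2 ≤ (j : ℝ) ^ 5 := by
    have : (81 : ℝ) ≤ (j : ℝ) ^ 3 := by
      calc (81 : ℝ) ≤ 5 ^ 3 := by norm_num
        _ ≤ (j : ℝ) ^ 3 := by gcongr
    calc 81 * (j : ℝ) ^ 2 ≤ (j : ℝ) ^ 3 * (j : ℝ) ^ 2 := by gcongr
      _ = (j : ℝ) ^ 5 := by ring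
  have h8 : e (-(1 / 8)) * T m = (Real.sqrt (6 * m) : ℂ) + e (-(1 / 8)) * (T m - (Real.sqrt (6 * m) : ℂ) * e (1 / 8)) := by
    have : e (-(1 / 8)) * e (1 / 8) = 1 := by
      rw [← e_add]
      norm_num
      exact e_zero
    have h9 : (Real.sqrt (6 * m) : ℂ) = (Real.sqrt (6 * m) : ℂ) * (e (-(1 / 8)) * e (1 / 8)) := by
      rw [this, mul_one]
    calc e (-(1 / 8)) * T m = (Real.sqrt (6 * m) : ℂ) * (e (-(1 / 8)) * e (1 / 8)) +
          e (-(1 / 8)) * (T m - (Real.sqrt (6 * m) : ℂ) * e (1 / 8)) := by ring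
      _ = _ := by rw [← h9]
  rw [h8, Complex.add_re, Complex.ofReal_re]
  have h10 : |(e (-(1 / 8)) * (T m - (Real.sqrt (6 * m) : ℂ) * e (1 / 8))).re| ≤ (j : ℝ) ^ 5 := by
    refine (Complex.abs_re_le_norm _).trans ?_
    rw [norm_mul, norm_e, one_mul]
    refine h3.trans ?_
    linarith
  have h11 := (abs_le.mp h10).1
  linarith

lemma big (j : ℕ) (hj : 5 ≤ j) :
    (j : ℝ) ^ 15 / 4 ≤ ‖∑ n ∈ Ico (st (j ^ 10)) (st (j ^ 10 + (j ^ 10 / 4 + 1))), e (ff n)‖ := by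
  rw [← sum_T]
  have hj0 : (0 : ℝ) ≤ j := Nat.cast_nonneg j
  have h1024 : 2 ^ 10 ≤ j ^ 10 := Nat.pow_le_pow_left (by omega) 10
  have h1 : ‖∑ m ∈ Ico (j ^ 10) (j ^ 10 + (j ^ 10 / 4 + 1)), T m‖ =
      ‖e (-(1 / 8)) * ∑ m ∈ Ico (j ^ 10) (j ^ 10 + (j ^ 10 / 4 + 1)), T m‖ := by
    rw [norm_mul, norm_e, one_mul]
  rw [h1]
  refine le_trans ?_ (Complex.re_le_norm _)
  rw [mul_sum, Complex.re_sum]
  have h2 : ∀ m ∈ Ico (j ^ 10) (j ^ 10 + (j ^ 10 / 4 + 1)), (j : ℝ) ^ 5 ≤ (e (-(1 / 8)) * T m).re := by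
    intro m hm
    rw [mem_Ico] at hm
    exact re_T hj hm.1 (by omega)
  have h3 := card_nsmul_le_sum _ _ _ h2
  rw [Nat.card_Ico, nsmul_eq_mul] at h3
  refine le_trans ?_ h3
  have h4 : (j : ℝ) ^ 10 / 4 ≤ ((j ^ 10 + (j ^ 10 / 4 + 1) - j ^ 10 : ℕ) : ℝ) := by
    have h5 : j ^ 10 ≤ 4 * (j ^ 10 + (j ^ 10 / 4 + 1) - j ^ 10) := by omega
    have h6 : ((j ^ 10 : ℕ) : ℝ) ≤ ((4 * (j ^ 10 + (j ^ 10 / 4 + 1) - j ^ 10) : ℕ) : ℝ) := by exact_mod_cast h5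
    push_cast [-Nat.cast_sub] at h6 ⊢
    linarith
  calc (j : ℝ) ^ 15 / 4 = (j : ℝ) ^ 10 / 4 * j ^ 5 := by ring
    _ ≤ _ := by gcongr

/-- the sum is large -/
theorem main (K : ℝ) : ∃ a b : ℕ, 2 ≤ a ∧ a ≤ b ∧ b ≤ 2 * a ∧
    K * (a : ℝ) ^ (1 / 2 : ℝ) * ((a : ℝ) ^ (3 / 2 : ℝ)) ^ (2 / 15 : ℝ) < ‖∑ n ∈ Icc a b, e (ff n)‖ := by
  obtain ⟨j0, hj0⟩ := exists_nat_gt (12 * |K|)
  set j := max j0 5 with hjdef
  have hj : 5 ≤ j := le_max_right _ _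
  have hjK : 12 * |K| < (j : ℝ) := lt_of_lt_of_le hj0 (by exact_mod_cast le_max_left _ _)
  have h1024 : 2 ^ 10 ≤ j ^ 10 := Nat.pow_le_pow_left (by omega) 10
  set M := j ^ 10 with hM
  have hst : st M + 3 * M = 3 * M ^ 2 + 1 := by
    have := st_le (m := M) (by omega)
    unfold st
    omega
  have hstL : st (M + (M / 4 + 1)) + 3 * (M + (M / 4 + 1)) = 3 * (M + (M / 4 + 1)) ^ 2 + 1 := by
    have := st_le (m := M + (M / 4 + 1)) (by omega)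
    unfold st
    omega
  have hle := st_mono' M (M / 4 + 1)
  have hlt : st M < st (M + (M / 4 + 1)) := by nlinarith [Nat.zero_le (M / 4)]
  refine ⟨st M, st (M + (M / 4 + 1)) - 1, by nlinarith, by omega, ?_, ?_⟩
  · have h4 : 4 * (M / 4) ≤ M := by omega
    have : st (M + (M / 4 + 1)) ≤ 2 * st M := by
      generalize M / 4 = q at *
      zify at *
      nlinarith
    omega
  · have e1 : Icc (st M) (st (M + (M / 4 + 1)) - 1) = Ico (st M) (st (M + (M / 4 + 1))) := by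
      ext n
      simp only [mem_Icc, mem_Ico]
      omega
    rw [e1]
    refine lt_of_lt_of_le ?_ (big j hj)
    have hj0' : (0 : ℝ) < j := by exact_mod_cast (by omega : 0 < j)
    have hsM : (0 : ℝ) < st M := by
      have : 0 < st M := by nlinarith
      exact_mod_cast this
    have e2 : (st M : ℝ) ^ (1 / 2 : ℝ) * ((st M : ℝ) ^ (3 / 2 : ℝ)) ^ (2 / 15 : ℝ) = (st M : ℝ) ^ (7 / 10 : ℝ) := by
      rw [← Real.rpow_mul hsM.le, ← Real.rpow_add hsM]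
      norm_num
    have e3 : (st M : ℝ) ^ (7 / 10 : ℝ) ≤ 3 * (j : ℝ) ^ 14 := by
      have h5 : (st M : ℝ) ≤ 3 * (j : ℝ) ^ 20 := by
        have h6 : st M ≤ 3 * M ^ 2 := by omega
        have h7 : (st M : ℝ) ≤ 3 * (M : ℝ) ^ 2 := by exact_mod_cast h6
        rw [hM] at h7
        push_cast at h7
        calc (st M : ℝ) ≤ 3 * ((j : ℝ) ^ 10) ^ 2 := h7
          _ = 3 * (j : ℝ) ^ 20 := by ring
      calc (st M : ℝ) ^ (7 / 10 : ℝ) ≤ (3 * (j : ℝ) ^ 20) ^ (7 / 10 : ℝ) := by gcongr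
        _ = (3 : ℝ) ^ (7 / 10 : ℝ) * ((j : ℝ) ^ 20) ^ (7 / 10 : ℝ) := by
            rw [Real.mul_rpow (by norm_num) (by positivity)]
        _ ≤ (3 : ℝ) ^ (1 : ℝ) * (j : ℝ) ^ 14 := by
            have h8 : ((j : ℝ) ^ 20) ^ (7 / 10 : ℝ) = (j : ℝ) ^ 14 := by
              rw [← Real.rpow_natCast (j : ℝ) 20, ← Real.rpow_mul hj0'.le, ← Real.rpow_natCast (j : ℝ) 14]
              norm_num
            rw [h8]
            have h9 : (3 : ℝ) ^ (7 / 10 : ℝ) ≤ (3 : ℝ) ^ (1 : ℝ) :=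
              Real.rpow_le_rpow_of_exponent_le (by norm_num) (by norm_num)
            gcongr
        _ = _ := by rw [Real.rpow_one]
    rw [mul_assoc, e2]
    calc K * (st M : ℝ) ^ (7 / 10 : ℝ) ≤ |K| * (st M : ℝ) ^ (7 / 10 : ℝ) := by
          gcongr; exact le_abs_self K
      _ ≤ |K| * (3 * (j : ℝ) ^ 14) := by gcongr
      _ = (12 * |K|) * ((j : ℝ) ^ 14 / 4) := by ring
      _ < (j : ℝ) * ((j : ℝ) ^ 14 / 4) := by gcongr
      _ = (j : ℝ) ^ 15 / 4 := by ring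

end Pool.Agent.Q237.EP
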