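import Mathlib
import Pool.Agent.Q237.EP.D6

set_option autoImplicit false

open Finset
open Pool.Agent.H469R2.NK (e norm_e e_add e_zero e_nat)

namespace Pool.Agent.Q237.EP

/-- the sum is large, with a free exponent `< 3 / 4` -/
theorem main_pq (K p q : ℝ) (hp : 0 ≤ p) (hq : 0 ≤ q) (h : p + 2 * q < 1 / 2) :
    ∃ a b : ℕ, 2 ≤ a ∧ a ≤ b ∧ b ≤ 2 * a ∧
    K * ((a : ℝ) ^ (3 / 2 : ℝ)) ^ p * (a : ℝ) ^ (q - p + 1 / 2) * ((a : ℝ) ^ (3 / 2 : ℝ)) ^ ((1 / 4 - p / 2 - q) / 3) <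
      ‖∑ n ∈ Icc a b, e (ff n)‖ := by
  set t := 1 / 4 - p / 2 - q with ht
  have ht0 : 0 < t := by rw [ht]; linarith
  have ht1 : t ≤ 1 / 4 := by rw [ht]; linarith
  -- choose `j`
  obtain ⟨j0, hj0⟩ : ∃ j0 : ℕ, ∀ j : ℕ, j0 ≤ j → 12 * |K| < (j : ℝ) ^ (10 * t) := by
    have h1 : Filter.Tendsto (fun j : ℕ => (j : ℝ) ^ (10 * t)) Filter.atTop Filter.atTop :=
      (tendsto_rpow_atTop (by positivity)).comp tendsto_natCast_atTop_atTop
    exact Filter.eventually_atTop.mp (h1.eventually_gt_atTop (12 * |K|))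
  set j := max j0 5 with hjdef
  have hj : 5 ≤ j := le_max_right _ _
  have hjK : 12 * |K| < (j : ℝ) ^ (10 * t) := hj0 j (le_max_left _ _)
  have h1024 : 2 ^ 10 ≤ j ^ 10 := Nat.pow_le_pow_left (by omega) 10
  set M := j ^ 10 with hM
  have hst : st M + 3 * M = 3 * M ^ 2 + 1 := by
    have := st_le (m := M) (by omega)
    unfold st
    omega
  have hstL : st (M + (M / 4 + 1)) + 3 * (M + (M / 4 + 1)) = 3 * (M + (M / 4 + 1)) ^ 2 + 1 := by
    have := st_le (m := M + (M / 4 + 1)) (by omega)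
    unfold st
    omega
  have hle := st_mono' M (M / 4 + 1)
  have hlt : st M < st (M + (M / 4 + 1)) := by nlinarith [Nat.zero_le (M / 4)]
  refine ⟨st M, st (M + (M / 4 + 1)) - 1, by nlinarith, by omega, ?_, ?_⟩
  · have h4 : 4 * (M / 4) ≤ M := by omega
    have : st (M + (M / 4 + 1)) ≤ 2 * st M := by
      generalize M / 4 = q at *
      zify at *
      nlinarith
    omega
  · have e1 : Icc (st M) (st (M + (M / 4 + 1)) - 1) = Ico (st M) (st (M + (M / 4 + 1))) := by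
      ext n
      simp only [mem_Icc, mem_Ico]
      omega
    rw [e1]
    refine lt_of_lt_of_le ?_ (big j hj)
    have hj0' : (0 : ℝ) < j := by exact_mod_cast (by omega : 0 < j)
    have hsM : (0 : ℝ) < st M := by
      have : 0 < st M := by nlinarith
      exact_mod_cast this
    have e2 : ((st M : ℝ) ^ (3 / 2 : ℝ)) ^ p * (st M : ℝ) ^ (q - p + 1 / 2) *
        ((st M : ℝ) ^ (3 / 2 : ℝ)) ^ (t / 3) = (st M : ℝ) ^ (3 / 4 - t / 2) := by
      rw [← Real.rpow_mul hsM.le, ← Real.rpow_mul hsM.le, ← Real.rpow_add hsM, ← Real.rpow_add hsM]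
      congr 1
      rw [ht]
      ring
    have e3 : (st M : ℝ) ^ (3 / 4 - t / 2) ≤ 3 * (j : ℝ) ^ (15 - 10 * t) := by
      have h5 : (st M : ℝ) ≤ 3 * (j : ℝ) ^ 20 := by
        have h6 : st M ≤ 3 * M ^ 2 := by omega
        have h7 : (st M : ℝ) ≤ 3 * (M : ℝ) ^ 2 := by exact_mod_cast h6
        rw [hM] at h7
        push_cast at h7
        calc (st M : ℝ) ≤ 3 * ((j : ℝ) ^ 10) ^ 2 := h7
          _ = 3 * (j : ℝ) ^ 20 := by ring
      calc (st M : ℝ) ^ (3 / 4 - t / 2) ≤ (3 * (j : ℝ) ^ 20) ^ (3 / 4 - t / 2) := by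
            apply Real.rpow_le_rpow hsM.le h5 (by linarith)
        _ = (3 : ℝ) ^ (3 / 4 - t / 2) * ((j : ℝ) ^ 20) ^ (3 / 4 - t / 2) := by
            rw [Real.mul_rpow (by norm_num) (by positivity)]
        _ ≤ (3 : ℝ) ^ (1 : ℝ) * (j : ℝ) ^ (15 - 10 * t) := by
            have h8 : ((j : ℝ) ^ 20) ^ (3 / 4 - t / 2) = (j : ℝ) ^ (15 - 10 * t) := by
              rw [← Real.rpow_natCast (j : ℝ) 20, ← Real.rpow_mul hj0'.le]
              congr 1
              push_cast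
              ring
            rw [h8]
            have h9 : (3 : ℝ) ^ (3 / 4 - t / 2) ≤ (3 : ℝ) ^ (1 : ℝ) :=
              Real.rpow_le_rpow_of_exponent_le (by norm_num) (by linarith)
            gcongr
        _ = _ := by rw [Real.rpow_one]
    have e4 : (j : ℝ) ^ 15 = (j : ℝ) ^ (15 - 10 * t) * (j : ℝ) ^ (10 * t) := by
      rw [← Real.rpow_add hj0', ← Real.rpow_natCast]
      congr 1
      push_cast
      ring
    have hpos : 0 < (j : ℝ) ^ (15 - 10 * t) := by positivity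
    calc K * ((st M : ℝ) ^ (3 / 2 : ℝ)) ^ p * (st M : ℝ) ^ (q - p + 1 / 2) * ((st M : ℝ) ^ (3 / 2 : ℝ)) ^ (t / 3)
        = K * (((st M : ℝ) ^ (3 / 2 : ℝ)) ^ p * (st M : ℝ) ^ (q - p + 1 / 2) *
          ((st M : ℝ) ^ (3 / 2 : ℝ)) ^ (t / 3)) := by ring
      _ = K * (st M : ℝ) ^ (3 / 4 - t / 2) := by rw [e2]
      _ ≤ |K| * (st M : ℝ) ^ (3 / 4 - t / 2) := by gcongr; exact le_abs_self K
      _ ≤ |K| * (3 * (j : ℝ) ^ (15 - 10 * t)) := by gcongr
      _ = (12 * |K|) * ((j : ℝ) ^ (15 - 10 * t) / 4) := by ring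
      _ < (j : ℝ) ^ (10 * t) * ((j : ℝ) ^ (15 - 10 * t) / 4) := by gcongr
      _ = (j : ℝ) ^ 15 / 4 := by rw [e4]; ring

end Pool.Agent.Q237.EP
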